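import Pool.Agent.H380.BG.Gen
import Pool.Agent.H102.BG.Ga
import Pool.Agent.H127.BG.Poi
import Pool.Agent.H695.BG.Eps
import Pool.Agent.H106.BG.Int
import Pool.Agent.H187.BG.Th
import Pool.Agent.H603.BG.Fep
import Pool.Agent.H227.BG.Coef
import Pool.Agent.H585.BG.Ww
import Pool.Agent.H230.BG.Csa
import Pool.Agent.H411.BG.Csb
import Pool.Agent.H784.BG.Shr
import Pool.Agent.H32.BG.Rsl
import Pool.Agent.H574.BG.Pri
import Pool.Agent.H415.BG.Ins

/-!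
# The instance: the L-function of the modular discriminant
-/

set_option autoImplicit false

namespace Pool.Agent.H380.BG

open Pool.Agent.W475.BG
open Pool.Agent.H575.RD (la LamM Dl)

theorem heckeSeq_la : W388.HeckeSeq 1 la where
  zero := Pool.Agent.H575.RD.la_zero
  one := Pool.Agent.H575.RD.la_one
  mul := fun m n h => Pool.Agent.H575.RD.la_mul h
  pow := fun p j hp => by
    rw [Pool.Agent.H575.RD.la_rec p hp j, if_neg]
    intro h
    exact hp.one_lt.ne' (Nat.dvd_one.1 h)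

theorem p_INT : S_INT := Pool.Agent.H106.BG.t_INT Pool.Agent.H102.BG.t_GA

theorem p_COEF : S_COEF := Pool.Agent.H227.BG.t_COEF

theorem p_W : S_W :=
  Pool.Agent.H585.BG.t_W
    (Pool.Agent.H603.BG.t_FEP
      (Pool.Agent.H187.BG.t_TH Pool.Agent.H127.BG.t_POI Pool.Agent.H695.BG.t_EPS p_INT) p_INT)
    p_COEF p_INT

theorem p_CS : S_CS := Pool.Agent.H784.BG.t_CS Pool.Agent.H230.BG.t_CSA Pool.Agent.H411.BG.t_CSB

theorem p_SHR : Shrt (fun n => (la n : ℂ)) ∧ ∃ C δ : ℝ, 0 < C ∧ 0 < δ ∧ δ < 1 ∧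
    ∀ n : ℕ, 1 ≤ n → la n ^ 2 ≤ C * (n : ℝ) ^ (1 - δ) := by
  obtain ⟨W, hW, -⟩ := p_W
  exact Pool.Agent.H784.BG.t_SHR la bb p_COEF.2.1 p_COEF.2.2.1 (p_CS bb W hW)

theorem p_RSL : W388.RSLim la := Pool.Agent.H32.BG.t_RSL p_INT.2.2.1 p_COEF p_W

theorem p_PRI : Prim (fun n => (la n : ℂ)) := Pool.Agent.H574.BG.t_PRI heckeSeq_la p_RSL p_SHR.2

theorem p_DEL : ∃ D : Dat, Ok D ∧ D.d = 2 ∧ ∀ s : ℂ, D.Lam s = 2 * LamM (s + 11 / 2) :=
  Pool.Agent.H415.BG.t_INS Pool.Agent.W50.BG.prm p_SHR.1 p_PRI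

theorem law_del (hst : S_STO) : Law 2 6 LamM := by
  obtain ⟨D, hD, hd, hL⟩ := p_DEL
  have h := flw (Pool.Agent.W962.BG.sym D hD) (gen hst D hD) (c0 := 6) (c := 2) two_ne_zero (Λ := LamM)
    (fun s => by rw [hL s]; congr 2; push_cast; norm_num)
  rwa [hd] at h

end Pool.Agent.H380.BG
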