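import Pool.Agent.H575.RD.D1
import Pool.Graph.R_pool_sql_team_seeded_f72693b1.W475.BG.Inst

/-!
# The de Bruijn-Newman flow of Ramanujan's Xi-function as a Gaussian average
-/

set_option autoImplicit false

namespace Pool.Agent.H380.BG

open Complex MeasureTheory Filter Topology Set
open Pool.Agent.H575.RD (LamM Dl)

lemma exp_aux (u : ℝ) (s : ℂ) (w : ℂ) :
    |Real.exp u| • (((Real.exp u : ℝ) : ℂ) ^ (s - 1) • w) = cexp (s * u) * w := by
  rw [abs_of_pos (Real.exp_pos u), Complex.real_smul, smul_eq_mul, ← mul_assoc]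
  congr 1
  have h0 : ((Real.exp u : ℝ) : ℂ) ≠ 0 := by exact_mod_cast (Real.exp_pos u).ne'
  rw [cpow_def_of_ne_zero h0, ← Complex.ofReal_log (Real.exp_pos u).le, Real.log_exp,
    Complex.ofReal_exp, ← Complex.exp_add]
  congr 1
  ring

lemma image_exp : Real.exp '' univ = Ioi 0 := by
  rw [Set.image_univ, Real.range_exp]

lemma mel (f : ℝ → ℂ) (s : ℂ) : mellin f s = ∫ u : ℝ, cexp (s * u) * f (Real.exp u) := by
  rw [mellin, ← image_exp, integral_image_eq_integral_abs_deriv_smul MeasurableSet.univ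
    (fun x _ => (Real.hasDerivAt_exp x).hasDerivWithinAt) Real.exp_injective.injOn,
    Measure.restrict_univ]
  exact integral_congr_ae (Filter.Eventually.of_forall fun u => exp_aux u s _)

lemma mel_int {f : ℝ → ℂ} {s : ℂ} (hf : MellinConvergent f s) :
    Integrable fun u : ℝ => cexp (s * u) * f (Real.exp u) := by
  rw [MellinConvergent, ← image_exp, integrableOn_image_iff_integrableOn_abs_deriv_smul
    MeasurableSet.univ (fun x _ => (Real.hasDerivAt_exp x).hasDerivWithinAt)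
    Real.exp_injective.injOn, integrableOn_univ] at hf
  exact hf.congr (Filter.Eventually.of_forall fun u => exp_aux u s _)

lemma gauss (κ u : ℝ) (hκ : 0 ≤ κ) :
    ((1 / Real.sqrt Real.pi : ℝ) : ℂ) * ∫ v : ℝ, ((Real.exp (-v ^ 2) : ℝ) : ℂ) *
      cexp (I * ((2 * Real.sqrt κ * v : ℝ) : ℂ) * u) = ((Real.exp (-(κ * u ^ 2)) : ℝ) : ℂ) := by
  have h := fourierIntegral_gaussian (b := 1) (by simp) ((2 * Real.sqrt κ * u : ℝ) : ℂ)
  have e1 : ∫ v : ℝ, ((Real.exp (-v ^ 2) : ℝ) : ℂ) *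
      cexp (I * ((2 * Real.sqrt κ * v : ℝ) : ℂ) * u) =
      ∫ x : ℝ, cexp (I * ((2 * Real.sqrt κ * u : ℝ) : ℂ) * x) * cexp (-1 * (x : ℂ) ^ 2) := by
    refine integral_congr_ae (Filter.Eventually.of_forall fun v => ?_)
    show ((Real.exp (-v ^ 2) : ℝ) : ℂ) * cexp (I * ((2 * Real.sqrt κ * v : ℝ) : ℂ) * u) =
      cexp (I * ((2 * Real.sqrt κ * u : ℝ) : ℂ) * v) * cexp (-1 * (v : ℂ) ^ 2)
    rw [Complex.ofReal_exp, ← Complex.exp_add, ← Complex.exp_add]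
    congr 1
    push_cast
    ring
  rw [e1, h]
  have hpi : ((1 / Real.sqrt Real.pi : ℝ) : ℂ) * ((Real.pi : ℂ) / 1) ^ (1 / 2 : ℂ) = 1 := by
    rw [div_one]
    have h2 : (Real.pi : ℂ) ^ (1 / 2 : ℂ) = ((Real.sqrt Real.pi : ℝ) : ℂ) := by
      rw [Real.sqrt_eq_rpow, Complex.ofReal_cpow Real.pi_pos.le]
      norm_num
    rw [h2]
    rw [← Complex.ofReal_mul]
    rw [one_div, inv_mul_cancel₀ (Real.sqrt_pos.2 Real.pi_pos).ne']
    simp
  rw [← mul_assoc, hpi, one_mul, Complex.ofReal_exp]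
  congr 1
  have h3 : ((Real.sqrt κ : ℝ) : ℂ) ^ 2 = (κ : ℂ) := by
    rw [← Complex.ofReal_pow, Real.sq_sqrt hκ]
  push_cast
  linear_combination (-(u : ℂ) ^ 2) * h3

lemma flow_eq (κ : ℝ) (hκ : 0 ≤ κ) (s : ℂ) :
    Pool.Agent.W475.BG.flow κ LamM s =
      ∫ u : ℝ, ((Real.exp (-(κ * u ^ 2)) : ℝ) : ℂ) * (cexp (s * u) * ((Dl (Real.exp u) : ℝ) : ℂ)) := by
  unfold Pool.Agent.W475.BG.flow
  have h1 : ∀ s, LamM s = ∫ u : ℝ, cexp (s * u) * ((Dl (Real.exp u) : ℝ) : ℂ) := fun s =>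
    mel (fun y : ℝ => ((Dl y : ℝ) : ℂ)) s
  have hI : Integrable fun u : ℝ => cexp (s * u) * ((Dl (Real.exp u) : ℝ) : ℂ) :=
    mel_int (f := fun y : ℝ => ((Dl y : ℝ) : ℂ)) (Pool.Agent.H575.RD.mc s)
  have hG : Integrable fun v : ℝ => ((Real.exp (-v ^ 2) : ℝ) : ℂ) := by
    have := (integrable_exp_neg_mul_sq (b := 1) one_pos).ofReal (𝕜 := ℂ)
    refine this.congr (Filter.Eventually.of_forall fun v => ?_)
    simp
  have hP : Integrable (fun p : ℝ × ℝ => (((Real.exp (-p.1 ^ 2) : ℝ) : ℂ) *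
      (cexp (s * p.2) * ((Dl (Real.exp p.2) : ℝ) : ℂ))) *
        cexp (I * ((2 * Real.sqrt κ * p.1 : ℝ) : ℂ) * p.2)) (volume.prod volume) := by
    refine (hG.mul_prod hI).mul_bdd (c := 1) (by fun_prop) ?_
    refine Filter.Eventually.of_forall fun p => ?_
    rw [Complex.norm_exp]
    simp
  have e1 : ∀ v : ℝ, ((Real.exp (-v ^ 2) : ℝ) : ℂ) * LamM (s + I * ((2 * Real.sqrt κ * v : ℝ) : ℂ)) =
      ∫ u : ℝ, (((Real.exp (-v ^ 2) : ℝ) : ℂ) * (cexp (s * u) * ((Dl (Real.exp u) : ℝ) : ℂ))) *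
        cexp (I * ((2 * Real.sqrt κ * v : ℝ) : ℂ) * u) := by
    intro v
    rw [h1, ← integral_const_mul]
    refine integral_congr_ae (Filter.Eventually.of_forall fun u => ?_)
    show _ * (cexp ((s + I * ((2 * Real.sqrt κ * v : ℝ) : ℂ)) * u) * _) = _
    rw [add_mul, Complex.exp_add]
    ring
  simp_rw [e1]
  rw [integral_integral_swap hP, ← integral_const_mul]
  refine integral_congr_ae (Filter.Eventually.of_forall fun u => ?_)
  show ((1 / Real.sqrt Real.pi : ℝ) : ℂ) * ∫ v : ℝ, (((Real.exp (-v ^ 2) : ℝ) : ℂ) *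
    (cexp (s * u) * ((Dl (Real.exp u) : ℝ) : ℂ))) * cexp (I * ((2 * Real.sqrt κ * v : ℝ) : ℂ) * u) =
    ((Real.exp (-(κ * u ^ 2)) : ℝ) : ℂ) * (cexp (s * u) * ((Dl (Real.exp u) : ℝ) : ℂ))
  rw [← gauss κ u hκ]
  have e2 : ∀ v : ℝ, (((Real.exp (-v ^ 2) : ℝ) : ℂ) * (cexp (s * u) * ((Dl (Real.exp u) : ℝ) : ℂ))) *
      cexp (I * ((2 * Real.sqrt κ * v : ℝ) : ℂ) * u) =
      (((Real.exp (-v ^ 2) : ℝ) : ℂ) * cexp (I * ((2 * Real.sqrt κ * v : ℝ) : ℂ) * u)) *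
        (cexp (s * u) * ((Dl (Real.exp u) : ℝ) : ℂ)) := fun v => by ring
  simp_rw [e2]
  rw [integral_mul_const, mul_assoc]

/-- `∫ e^(t u² + 6 u) Δ(i e^u) e^(i z u) du` -/
noncomputable def H (t : ℝ) (z : ℂ) : ℂ :=
  ∫ u : ℝ, ((Real.exp (t * u ^ 2 + 6 * u) * Dl (Real.exp u) : ℝ) : ℂ) * cexp (I * z * u)

lemma H_zero (z : ℂ) : H 0 z = LamM (6 + I * z) := by
  unfold H
  rw [show LamM (6 + I * z) = ∫ u : ℝ, cexp ((6 + I * z) * u) * ((Dl (Real.exp u) : ℝ) : ℂ) from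
    mel (fun y : ℝ => ((Dl y : ℝ) : ℂ)) (6 + I * z)]
  refine integral_congr_ae (Filter.Eventually.of_forall fun u => ?_)
  show ((Real.exp (0 * u ^ 2 + 6 * u) * Dl (Real.exp u) : ℝ) : ℂ) * cexp (I * z * u) =
    cexp ((6 + I * z) * u) * ((Dl (Real.exp u) : ℝ) : ℂ)
  rw [Complex.ofReal_mul, Complex.ofReal_exp, mul_right_comm, ← Complex.exp_add]
  congr 2
  push_cast
  ring

lemma H_neg (κ : ℝ) (hκ : 0 ≤ κ) (z : ℂ) :
    H (-κ) z = Pool.Agent.W475.BG.flow κ LamM (6 + I * z) := by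
  unfold H
  rw [flow_eq κ hκ]
  refine integral_congr_ae (Filter.Eventually.of_forall fun u => ?_)
  show ((Real.exp (-κ * u ^ 2 + 6 * u) * Dl (Real.exp u) : ℝ) : ℂ) * cexp (I * z * u) =
    ((Real.exp (-(κ * u ^ 2)) : ℝ) : ℂ) * (cexp ((6 + I * z) * u) * ((Dl (Real.exp u) : ℝ) : ℂ))
  rw [Complex.ofReal_mul, Complex.ofReal_exp, Complex.ofReal_exp, ← mul_assoc, ← Complex.exp_add,
    mul_right_comm, ← Complex.exp_add]
  congr 2
  push_cast
  ring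

end Pool.Agent.H380.BG
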