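import Pool.Graph.R_pool_sql_team_seeded_f72693b1.W475.BG.Stm

/-!
# Stirling's formula for one gamma factor: statements
-/

set_option autoImplicit false

namespace Pool.Agent.H380.BG

open Complex MeasureTheory Filter Topology Set

/-- Task PSI. The digamma function in the sector `arg w ≤ 3π/4`, away from the real axis. PROOF. For
instance from the series/integral for `re w > 0` and the recursion, or: `log Γ` by Binet, or
`Pool.Graph.R_seed8.H382R2.Digamma` (`digamma_bound`), `Pool.Graph.R_seed8.Y37.OJ.Gam`,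
`Pool.Graph.R_pool_sql_team_seeded_1acbe0a2.Y974.OJ.GA0` (trapezoidal rule for
`ψ(w) = lim (log n - ∑_{k ≤ n} 1/(w+k))`: each trapezoid error is at most `C/|w+k|²` up to
`1/2 · (1/(w+k) - 1/(w+k+1))` telescoping, and `∑_k 1/|w+k|² ≤ C/|w|` in the sector). -/
def S_PSI : Prop := ∃ C : ℝ, 0 < C ∧ ∀ w : ℂ, 1 ≤ w.im → -w.im ≤ w.re →
  ‖logDeriv Gamma w - Complex.log w‖ ≤ C / ‖w‖

/-- Task STO. PROOF. `HH (one m) z = Gammaℝ (1/2 + z + m)` (file `W847/BG/STP`, `HH_one`), with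
`Gammaℝ s = π^(-s/2) Γ(s/2)` and `ld z := logDeriv (HH (one m)) z = -log π / 2 + ψ(w)/2`, `w = (1/2+m+z)/2`.
For `z = I t + u`, `‖u‖ ≤ t/8`, `t ≥ T0(m)`: `im w ≥ 7t/16`, `re w ≥ -t/16`, so
`ld z = log(w)/2 - log π/2 + O(1/t)`. (a) `z = I t`: `w = I t/2 · (1 + O(1/t))` gives clause 2.
(b) `HH(I t + u) = HH(I t) exp(∫_0^1 u ld(I t + s u) ds)` (no zeros, `Γ` does not vanish); the real part
of `ld` is `log t / 2 + O(1)`, the imaginary part `O(1)`: clauses 4, and 6 with `u = I h` (the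
`log t` does not enter since `re u = 0`). (c) `‖ld'‖ ≤ C/t` in the region (Cauchy's estimate for
`ψ(w) - log w` on discs of radius `t/16`, and `(log w)' = 1/w`), so
`|∫ u (ld(I t + s u) - ld(I t)) ds| ≤ C ‖u‖²/t`, and `|e^x - 1| ≤ 2|x|` for `|x| ≤ 1`: clause 5 (K large).
(d) clause 3: `log ‖HH(I t)‖ = log ‖HH(I T1)‖ - ∫_{T1}^t im ld(I s) ds ≥ -K t`. -/
def S_STO : Prop := ∀ m : ℝ, 0 ≤ m → Pool.Agent.W475.BG.S_STIR (Pool.Agent.W475.BG.one m)

end Pool.Agent.H380.BG
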