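import Pool.Graph.R_pool_sql_team_seeded_f72693b1.W490.BG.Cal
import Pool.Graph.R_pool_sql_team_seeded_f72693b1.W99.BG.D1
import Pool.Graph.R_pool_sql_team_seeded_f72693b1.W847.BG.STP
import Pool.Graph.R_pool_sql_team_seeded_f72693b1.W356.BG.GGC
import Pool.Graph.R_pool_sql_team_seeded_f72693b1.W836.BG.VAR
import Pool.Graph.R_pool_sql_team_seeded_f72693b1.W398.BG.TAIL
import Pool.Graph.R_pool_sql_team_seeded_f72693b1.W45.BG.EXP
import Pool.Graph.R_pool_sql_team_seeded_f72693b1.W2.BG.GGA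
import Pool.Graph.R_pool_sql_team_seeded_f72693b1.W661.BG.Lowd
import Pool.Graph.R_pool_sql_team_seeded_f72693b1.W403.BG.Cat
import Pool.Graph.R_pool_sql_team_seeded_f72693b1.W236.BG.DSC
import Pool.Graph.R_pool_sql_team_seeded_f72693b1.W304.BG.GRW
import Pool.Graph.R_pool_sql_team_seeded_f72693b1.W202.BG.TOT
import Pool.Graph.R_pool_sql_team_seeded_f72693b1.W308.BG.UPP
import Pool.Graph.R_pool_sql_team_seeded_f72693b1.W691.BG.Cnt
import Pool.Graph.R_pool_sql_team_seeded_f72693b1.W721.BG.En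
import Pool.Graph.R_pool_sql_team_seeded_f72693b1.W962.BG.Sym
import Pool.Graph.R_pool_sql_team_seeded_f72693b1.W605.BG.CNA
import Pool.Graph.R_pool_sql_team_seeded_f72693b1.W50.BG.PRM
import Pool.Graph.R_pool_sql_team_seeded_f72693b1.W273.BG.CRU
import Pool.Graph.R_pool_sql_team_seeded_f72693b1.W475.BG.Flw
import Pool.Graph.R_pool_sql_team_seeded_f72693b1.W475.BG.Fin
import Pool.Graph.R_pool_sql_team_seeded_f72693b1.W351.BG.Loc
import Pool.Graph.R_pool_sql_team_seeded_f72693b1.W782.BG.Cnj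
import Pool.Graph.R_pool_sql_team_seeded_f72693b1.W195.BG.Win
import Pool.Graph.R_pool_sql_team_seeded_f72693b1.W334.BG.Lows
import Pool.Graph.R_pool_sql_team_seeded_f72693b1.W52.BG.GGU
import Pool.Graph.R_seed8.W701.BH.MV
import Pool.Graph.R_seed8.W346.BH.CB
import Pool.Agent.H380.BG.Sti

/-!
# Assembly of project BG: the theorem for every L-function with the properties `Ok`
-/

set_option autoImplicit false

namespace Pool.Agent.H380.BG

open Pool.Agent.W475.BG

/-- The pieces for one L-function. -/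
structure Pk (D : Dat) : Prop where
  sym : S_SYM D
  grw : S_GRW D
  cnt : S_CNT D
  cna : S_CNA D

theorem pk (hst : S_STO) (D : Dat) (hD : Ok D) : Pk D := by
  have hSYM := Pool.Agent.W962.BG.sym D hD
  have hSTIR := Pool.Agent.W847.BG.stp D hD hst
  have hGGC := Pool.Agent.W356.BG.ggc D hD
  have hEXP := Pool.Agent.W45.BG.exp_ D hD hGGC
  have hGRW := Pool.Agent.W304.BG.grw D hD hGGC hEXP hSYM
  have hGGA := Pool.Agent.W2.BG.gga D hD hSTIR hGGC
  have hGGU := Pool.Agent.W52.BG.ggu D hD hSTIR hGGC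
  have hTAIL := Pool.Agent.W398.BG.tail D hD hSTIR hGGC hGGU
  have hLOC := Pool.Agent.W351.BG.loc D hD hEXP hSTIR hGGA hTAIL
  have hUPP := Pool.Agent.W308.BG.upp D hD hSYM hSTIR hLOC
  have hLOWS := Pool.Agent.W334.BG.lows D hD hSTIR hLOC
  have hLOWD := Pool.Agent.W661.BG.lowd D hD hSYM hSTIR hLOC
  have hD1 := Pool.Agent.W99.BG.d1 D hD
  have hVAR := Pool.Agent.W836.BG.var D hD Pool.Agent.W701.BH.mv hD1
  have hEN := Pool.Agent.W721.BG.en D hD hVAR
  have hWIN := Pool.Agent.W195.BG.win D hD hSYM hSTIR hUPP hLOWS hLOWD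
  have hCRU := Pool.Agent.W273.BG.cru D hD hSYM hSTIR hUPP hLOWD Pool.Agent.W346.BH.t_CB
  have hCNT := Pool.Agent.W691.BG.cnt D hD hSYM hSTIR hEN Pool.Agent.W490.BG.cal hWIN hCRU
  have hCNA := Pool.Agent.W605.BG.cna D hD hSYM hSTIR Pool.Agent.W403.BG.cat hWIN hCRU
  exact ⟨hSYM, hGRW, hCNT, hCNA⟩

/-- The theorem for every L-function with the properties `Ok`. -/
theorem gen (hst : S_STO) (D : Dat) (hD : Ok D) : S_FIN D := by
  have h1 := pk hst D hD
  have h2 := pk hst (cj D) (Pool.Agent.W782.BG.cnj D hD)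
  have hTOT := Pool.Agent.W202.BG.TOT.tot D hD h1.sym h1.grw h1.cna h2.cna
  have hDSC := Pool.Agent.W236.BG.dsc D hD h1.sym h1.cnt h2.cnt hTOT
  exact fin hD h1.sym hTOT hDSC

end Pool.Agent.H380.BG
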