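import Pool.Agent.H380.BG.Del
import Pool.Agent.H380.BG.Four

/-!
# The law for the zeros of the de Bruijn-Newman flow of Ramanujan's Xi-function
-/

set_option autoImplicit false

namespace Pool.Agent.H380.BG

open Complex MeasureTheory Filter Topology Set
open Pool.Agent.H575.RD (LamM Dl)
open Pool.Agent.W475.BG (flow zeros num Law)

/-- the zeros of `H t` with absolute value at most `R` -/
def ZZ (t R : ℝ) : Set ℂ := {z : ℂ | H t z = 0 ∧ ‖z‖ ≤ R}

/-- the number of zeros in `A`, with multiplicity -/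
noncomputable def NN (t : ℝ) (A : Set ℂ) : ℝ := ((∑ᶠ z ∈ A, analyticOrderNatAt (H t) z : ℕ) : ℝ)

/-- the change of variables -/
def g (z : ℂ) : ℂ := 6 + I * z

lemma g_inj : Function.Injective g := by
  intro x y h
  have : I * x = I * y := add_left_cancel h
  exact mul_left_cancel₀ I_ne_zero this

lemma g_surj (s : ℂ) : ∃ z, g z = s := ⟨-I * (s - 6), by
  unfold g
  have : I * (-I * (s - 6)) = -(I * I) * (s - 6) := by ring
  rw [this, I_mul_I]
  ring⟩

lemma g_re (z : ℂ) : (g z).re - 6 = -z.im := by simp [g]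

lemma g_norm (z : ℂ) : ‖g z - ((6 : ℝ) : ℂ)‖ = ‖z‖ := by
  have : g z - ((6 : ℝ) : ℂ) = I * z := by
    unfold g
    push_cast
    ring
  rw [this, norm_mul, norm_I, one_mul]

lemma g_deriv (z : ℂ) : HasDerivAt g I z := by
  have h := ((hasDerivAt_id z).const_mul I).const_add 6
  rw [mul_one] at h
  exact h

lemma g_an (z : ℂ) : AnalyticAt ℂ g z := by
  have h : Differentiable ℂ g := fun z => (g_deriv z).differentiableAt
  exact h.analyticAt z

lemma H_comp (κ : ℝ) (hκ : 0 ≤ κ) : H (-κ) = flow κ LamM ∘ g := by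
  funext z
  exact H_neg κ hκ z

lemma ord (κ : ℝ) (hκ : 0 ≤ κ) (z : ℂ) :
    analyticOrderNatAt (H (-κ)) z = analyticOrderNatAt (flow κ LamM) (g z) := by
  unfold analyticOrderNatAt
  rw [H_comp κ hκ, analyticOrderAt_comp_of_deriv_ne_zero (g_an z)]
  rw [(g_deriv z).deriv]
  exact I_ne_zero

lemma num_image (κ : ℝ) (hκ : 0 ≤ κ) (A : Set ℂ) : num κ LamM (g '' A) = NN (-κ) A := by
  unfold num NN
  rw [finsum_mem_image g_inj.injOn]
  congr 1
  exact finsum_congr fun z => finsum_congr fun _ => (ord κ hκ z).symm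

lemma zeros_image (κ : ℝ) (hκ : 0 ≤ κ) (R : ℝ) (P : ℝ → Prop) :
    {s | s ∈ zeros κ LamM 6 R ∧ P (s.re - 6)} = g '' {z | z ∈ ZZ (-κ) R ∧ P (-z.im)} := by
  ext s
  obtain ⟨z, rfl⟩ := g_surj s
  rw [g_inj.mem_set_image]
  simp only [Set.mem_ofPred_eq, zeros, ZZ, g_re, g_norm, H_comp κ hκ, Function.comp]

lemma zeros_image' (κ : ℝ) (hκ : 0 ≤ κ) (R : ℝ) : zeros κ LamM 6 R = g '' ZZ (-κ) R := by
  have := zeros_image κ hκ R (fun _ => True)
  simpa using this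

theorem law_z (hst : S_STO) (κ : ℝ) (hκ : 0 < κ) :
    Differentiable ℂ (H (-κ)) ∧
    (∀ R : ℝ, (ZZ (-κ) R).Finite) ∧
    Tendsto (fun R : ℝ => NN (-κ) (ZZ (-κ) R) / (R * Real.log R)) atTop (𝓝 (2 / Real.pi)) ∧
    (∀ a b : ℝ, 1 / 2 < a → a ≤ b → b ≤ 1 →
      Tendsto (fun R : ℝ => NN (-κ) {z | z ∈ ZZ (-κ) R ∧
        a * (2 * κ * Real.log R) ≤ z.im ∧ z.im ≤ b * (2 * κ * Real.log R)} /
          NN (-κ) (ZZ (-κ) R)) atTop (𝓝 ((b - a) / 2)) ∧
      Tendsto (fun R : ℝ => NN (-κ) {z | z ∈ ZZ (-κ) R ∧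
        a * (2 * κ * Real.log R) ≤ -z.im ∧ -z.im ≤ b * (2 * κ * Real.log R)} /
          NN (-κ) (ZZ (-κ) R)) atTop (𝓝 ((b - a) / 2))) ∧
    ∀ ε : ℝ, 0 < ε → ∀ᶠ R : ℝ in atTop,
      (1 / 2 - ε) * NN (-κ) (ZZ (-κ) R) ≤ NN (-κ) {z | z ∈ ZZ (-κ) R ∧ z.im ≠ 0} := by
  obtain ⟨h1, h2, h3, h4⟩ := law_del hst κ hκ
  have e0 : ∀ R, num κ LamM (zeros κ LamM 6 R) = NN (-κ) (ZZ (-κ) R) := fun R => by
    rw [zeros_image' κ hκ.le, num_image κ hκ.le]
  have e1 : ∀ (R : ℝ) (P : ℝ → Prop), num κ LamM {s | s ∈ zeros κ LamM 6 R ∧ P (s.re - 6)} =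
      NN (-κ) {z | z ∈ ZZ (-κ) R ∧ P (-z.im)} := fun R P => by
    rw [zeros_image κ hκ.le, num_image κ hκ.le]
  refine ⟨?_, ?_, ?_, ?_, ?_⟩
  · obtain ⟨D, hD, hd, hL⟩ := p_DEL
    have h := Pool.Agent.W475.BG.flow_diff (Pool.Agent.W962.BG.sym D hD) (c0 := 6) (c := 2)
      two_ne_zero (Λ := LamM) (fun s => by rw [hL s]; congr 2; push_cast; norm_num) hκ
    rw [H_comp κ hκ.le]
    exact h.comp fun z => (g_deriv z).differentiableAt
  · intro R
    have h := h1 R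
    rw [zeros_image' κ hκ.le] at h
    exact h.of_finite_image g_inj.injOn
  · simp only [e0] at h2
    have : ((2 : ℕ) : ℝ) / Real.pi = 2 / Real.pi := by norm_num
    rw [this] at h2
    exact h2
  · intro a b ha hab hb
    have ha' : 1 - 1 / ((2 : ℕ) : ℝ) < a := by
      refine lt_of_eq_of_lt ?_ ha
      norm_num
    obtain ⟨p, q⟩ := h3 a b ha' hab hb
    constructor
    · refine q.congr fun R => ?_
      rw [e0]
      congr 1
      have := e1 R fun x => a * (2 * κ * Real.log R) ≤ -x ∧ -x ≤ b * (2 * κ * Real.log R)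
      simp only [neg_sub, neg_neg] at this
      exact_mod_cast this
    · refine p.congr fun R => ?_
      rw [e0]
      congr 1
      have := e1 R fun x => a * (2 * κ * Real.log R) ≤ x ∧ x ≤ b * (2 * κ * Real.log R)
      exact_mod_cast this
  · intro ε hε
    filter_upwards [h4 ε hε] with R hR
    rw [e0] at hR
    have h5 : {s | s ∈ zeros κ LamM 6 R ∧ s.re ≠ 6} =
        {s | s ∈ zeros κ LamM 6 R ∧ (fun x : ℝ => x ≠ 0) (s.re - 6)} := by
      ext s
      simp only [Set.mem_ofPred_eq, sub_ne_zero]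
    have h6 := e1 R fun x => x ≠ 0
    rw [← h5] at h6
    rw [h6] at hR
    simp only [ne_eq, neg_eq_zero] at hR
    have h7 : (1 / ((2 : ℕ) : ℝ) - ε) = 1 / 2 - ε := by norm_num
    rw [h7] at hR
    exact hR

end Pool.Agent.H380.BG
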