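import Pool.Graph.R_pool_sql_team_seeded_f72693b1.W475.BG.Inst
import Pool.Graph.R_seed8.W388.TW.D0
import Pool.Agent.H575.RD.D3

/-!
# The L-function of the modular discriminant satisfies the hypotheses of project BG

Rankin-Selberg theory of level one, with the functional equation: statements, WITH PAPER PROOFS.
`la n = τ(n) / n^(11/2)` (`Pool.Agent.H575.RD`).
-/

set_option autoImplicit false

namespace Pool.Agent.H380.BG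

open Complex MeasureTheory Filter Topology Set MatrixGroups CongruenceSubgroup
open UpperHalfPlane hiding I
open Pool.Agent.X3.Tau (tau)
open Pool.Agent.H575.RD (la LamM Dl)
open Pool.Agent.W475.BG (Shrt Prim Dat Ok)
open scoped ENNReal Real

/-! ## Rankin-Selberg -/

/-- Task GA. The discriminant as a cusp form on `Γ₀(1)`. -/
def S_GA : Prop := ∃ f : CuspForm (Gamma0 1 : Subgroup (GL (Fin 2) ℝ)) 12,
  (∀ z : ℍ, f z = CuspForm.discriminant z) ∧ ∀ n : ℕ, (qExpansion 1 f).coeff n = ((tau n : ℤ) : ℂ)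

/-- `|Δ(z)|² (Im z)^12`, invariant under `SL(2,ℤ)`. -/
noncomputable def Ph (z : ℍ) : ℝ≥0∞ :=
  ENNReal.ofReal (‖CuspForm.discriminant z‖ ^ 2 * z.im ^ (12 : ℤ))

/-- A measure on the strip which represents `|Δ|² y^12 dμ` on the modular surface. -/
noncomputable def nu : Measure ℍ := (volume : Measure ℍ).withDensity fun z =>
  W388.strip z * (Ph z * ENNReal.ofReal (z.im ^ (2 : ℝ)) * (W388.EisG 1 2 z)⁻¹)

/-- The theta function of the lattice `ℤ z + ℤ` without its constant term. -/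
noncomputable def th1 (t : ℝ) (z : ℍ) : ℝ≥0∞ :=
  ∑' p : {p : ℤ × ℤ // p ≠ 0},
    ENNReal.ofReal (Real.exp (-(π * t * (‖(p.1.1 : ℂ) * (z : ℂ) + (p.1.2 : ℂ)‖ ^ 2 / z.im))))

/-- Its integral against `nu`. -/
noncomputable def Th (t : ℝ) : ℝ≥0∞ := ∫⁻ z, th1 t z ∂nu

/-- `ζ(2s)` -/
noncomputable def zs (s : ℝ) : ℝ≥0∞ := ∑' N : ℕ, ENNReal.ofReal (((N : ℝ) + 1) ^ (-(2 * s)))

/-- `∑ la(n)² n^(-s)` -/
noncomputable def rs (s : ℝ) : ℝ≥0∞ := ∑' n : ℕ, ENNReal.ofReal (la n ^ 2 * (n : ℝ) ^ (-s))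

/-- the archimedean factor -/
noncomputable def ar (s : ℝ) : ℝ :=
  Real.Gamma s / π ^ s * (Real.Gamma (11 + s) / (4 * π) ^ (11 + s))

/-- Task POI. Poisson summation. PROOF. `|m z + n|² = (n + m x)² + m² y²` for `z = x + i y`.
The sum over all `(m,n)` is `∑_m e^(-π t m² y) ∑_n e^(-π t (n + m x)² / y)`; Poisson in `n`
(Mathlib: Real/Complex `tsum_exp_neg_quadratic`, `jacobiTheta₂_functional_equation`, or
`Real.tsum_exp_neg_mul_int_sq` with a shift) gives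
`√(y/t) ∑_m ∑_k e^(-π t m² y) e^(-π k² y / t) e(k m x)`, and for `1/t` in place of `t` (exchange the
names `m`, `k`) `√(y t) ∑_m ∑_k e^(-π t m² y) e^(-π k² y / t) e(k m x)`: the same (absolutely
convergent) double sum. Hence `θ(1/t) = t θ(t)`. The term `(0,0)` is the `1`. -/
def S_POI : Prop := ∀ (z : ℍ) (t : ℝ), 0 < t → th1 t z ≠ ⊤ ∧
  1 + th1 (1 / t) z = ENNReal.ofReal t * (1 + th1 t z)

/-- Task EPS. Mellin transform of the theta function. PROOF. Tonelli (everything in `ENNReal`);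
`∫_0^∞ t^(s-1) e^(-π t Q) dt = Γ(s) (π Q)^(-s)` with `Q = |m z + n|² / y > 0`; every `(m,n) ≠ 0` is
uniquely `(N+1) (c,d)` with `(c,d)` coprime (`Int.gcd`), and `StEisPairs`
(`W54.TW.t_eispairs`, file `Pool.Graph.R_seed8.W54.TW.EisPairs`) for `N = 1`. -/
def S_EPS : Prop := ∀ (z : ℍ) (s : ℝ), 1 < s →
  ∫⁻ t in Ioi (0 : ℝ), ENNReal.ofReal (t ^ (s - 1)) * th1 t z =
    ENNReal.ofReal (Real.Gamma s / π ^ s) * zs s * W388.EisG 1 s z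

/-- Task INT. PROOF. `W54.TW.t_unfold : StUnfold` and `W388.XPars.t_pars : StPars` (files
`Pool.Graph.R_seed8.W54.TW.Unfold`, `Pool.Graph.R_seed8.W388.TW.XPars`) for `N = 1`, `k = 12` and the
form of `S_GA`, `σ = s - 1`, `φ = Ph` (invariance and measurability as in
`Pool.Graph.R_seed8.W438.TW.RS2`: `measurable_phi`, `phi_smul`); `EisG 1 2 z` is finite and nonzero
(see `W438.TW.RS`, `RS3`, `RS4`: `eisG_ge`, `exists_fd`, and `StEisBd`). Finiteness of `nu univ`: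
`EisG 1 2 z ≥ (Im γz)² ≥ 3/4` for the `γ z` in the fundamental domain, so
`nu univ ≤ (4/3) ∫ EisG 1 2 dnu < ∞`. Nonzero: the density is positive on the strip (`Δ ≠ 0`, Mathlib
`ModularForm.discriminant_ne_zero` or the product). `rs s < ∞`: by
`Pool.Agent.H424.DX.sum_sq` (file `Pool.Agent.H424.DX.MS`: `∑_{n ≤ N} τ(n)² ≤ C N^12`) and summation
over dyadic blocks. -/
def S_INT : Prop := nu univ ≠ 0 ∧ nu univ ≠ ⊤ ∧ (∀ s : ℝ, 1 < s → rs s ≠ ⊤) ∧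
  ∀ s : ℝ, 1 < s → ∫⁻ z, W388.EisG 1 s z ∂nu =
    ENNReal.ofReal (Real.Gamma (11 + s) / (4 * π) ^ (11 + s)) * rs s

/-- Task TH. PROOF. From `S_POI`, `S_EPS`, `S_INT`. (1), (2): `e^(-u) ≤ C_r u^(-r)`, so
`th1 t z ≤ C_r (π t)^(-r) ∑_{p ≠ 0} Q_p^(-r)`, which for `r > 1` is `C t^(-r) zs r * EisG 1 r z`
(see `S_EPS`; or directly from `S_EPS`: `th1` decreases in `t`, so
`th1 t z * ∫_0^t u^(r-1) du ≤ ∫ u^(r-1) th1 u z du`, i.e. `th1 t z ≤ r t^(-r) Γ(r) π^(-r) zs r EisG 1 r z`),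
and integrate with `S_INT`. (3) integrate `S_POI`. (4) `th1` is decreasing in `t`. (5) Tonelli. -/
def S_TH : Prop := (∀ t : ℝ, 0 < t → Th t ≠ ⊤) ∧
  (∀ r : ℝ, ∃ C : ℝ, 0 < C ∧ ∀ t : ℝ, 1 ≤ t → Th t ≤ ENNReal.ofReal (C * t ^ (-r))) ∧
  (∀ t : ℝ, 0 < t → nu univ + Th (1 / t) = ENNReal.ofReal t * (nu univ + Th t)) ∧
  (∀ s t : ℝ, 0 < s → s ≤ t → Th t ≤ Th s) ∧
  ∀ s : ℝ, 1 < s → ∫⁻ t in Ioi (0 : ℝ), ENNReal.ofReal (t ^ (s - 1)) * Th t =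
    ENNReal.ofReal (ar s) * (zs s * rs s)

/-- Task FEP. The completed Rankin-Selberg function times `s (s-1)`. PROOF. Mathlib `WeakFEPair` with
`f = g = c + Th`, `c = nu univ` (as real numbers, cast to `ℂ`), `k = 1`, `ε = 1`, `f₀ = g₀ = c`;
local integrability since `Th` is decreasing; `hasMellin`/`Λ`: for `s > 1` real `Λ s` is the Mellin
transform of `Th`, which is `S_TH (5)`. `E s = s (s-1) Λ₀ s + c` (`Λ = Λ₀ - c/s - c/(1-s)`), functional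
equation of `Λ₀`. Bound: `Λ₀` is bounded in vertical strips, as the Mellin transform of
`f_modif` (compare `Pool.Agent.H575.RD.D1`, `norm_LamM_le`, `LamM_strip`). -/
def S_FEP : Prop := ∃ (E : ℂ → ℂ) (c : ℝ), 0 < c ∧ Differentiable ℂ E ∧ (∀ s, E (1 - s) = E s) ∧
  E 1 = c ∧ (∃ C : ℝ, ∀ s : ℂ, -1 ≤ s.re → s.re ≤ 2 → ‖E s‖ ≤ C * (1 + ‖s‖) ^ 2) ∧
  ∀ s : ℝ, 1 < s → E s = ((s * (s - 1) * ar s * ((zs s).toReal * (rs s).toReal) : ℝ) : ℂ)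

/-- The coefficients of `ζ(2s) ∑ la(n)² n^(-s)`. -/
noncomputable def bb (n : ℕ) : ℝ := W388.AA 1 la n

/-- Task COEF. PROOF. `bb n = ∑_{m² ∣ n} la(n/m²)²`: product of Dirichlet series with nonnegative
terms (rearrangement over `(m, l)`, `n = m² l`; `la 0 = 0`). -/
def S_COEF : Prop := bb 0 = 0 ∧ (∀ n, 0 ≤ bb n) ∧ (∀ n, la n ^ 2 ≤ bb n) ∧ ∀ s : ℝ, 1 < s →
  rs s ≠ ⊤ → Summable (fun n : ℕ => bb n * (n : ℝ) ^ (-s)) ∧ (zs s).toReal * (rs s).toReal =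
    ∑' n : ℕ, bb n * (n : ℝ) ^ (-s)

/-- `W` is the continuation of `(s-1) ∑ b(n) n^(-s)`. -/
structure Cont (b : ℕ → ℝ) (W : ℂ → ℂ) : Prop where
  zero : b 0 = 0
  nonneg : ∀ n, 0 ≤ b n
  summ : ∀ s : ℝ, 1 < s → Summable (fun n : ℕ => b n * (n : ℝ) ^ (-s))
  diff : Differentiable ℂ W
  ser : ∀ s : ℂ, 1 < s.re → W s = (s - 1) * ∑' n : ℕ, (b n : ℂ) * (n : ℂ) ^ (-s)
  gr : ∃ C : ℝ, ∀ s : ℂ, -1 ≤ s.re → s.re ≤ 2 → ‖W s‖ ≤ Real.exp (C * (1 + |s.im|) ^ (3 / 2 : ℝ))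
  left : ∃ C : ℝ, ∀ t : ℝ, ‖W (-(1 / 2) + I * t)‖ ≤ C * (1 + |t|) ^ (5 : ℕ)

/-- Task W. PROOF. `W s = E s * π^s (4π)^(11+s) / (Γ(s+1) Γ(s+11))` (entire: `Complex.Gamma`
reciprocal is entire, `Complex.differentiable_one_div_Gamma`). For real `s > 1` it is
`(s-1) ∑ bb(n) n^(-s)` by `S_FEP`, `S_COEF` (`s Γ(s) = Γ(s+1)`), hence for all `re s > 1` by the
identity theorem. `W 1 = c π (4π)^12 / Γ(12) > 0`. Growth: bound of `S_FEP` and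
`|1/Γ(s)| ≤ exp(C (1+|im s|)^(3/2))` in vertical strips (for instance `inv_Gamma_le` in
`Pool.Graph.R_seed8.W820.TW.FE`; or shift to `re ≥ 1` by `Γ(s+1) = s Γ(s)` and use
`1/Γ(s) = sin(π s) Γ(1-s) / π`). Left line: `s = -1/2 + it`, `E s = E (1-s)` and
`E(1-s) = W(1-s) Γ(2-s) Γ(12-s) π^(s-1) (4π)^(s-12)`, `|W(3/2 - it)| ≤ (1+|t|) ∑ bb(n) n^(-3/2)`,
`|Γ(5/2-it)| = |Γ(5/2+it)| = |(1/2+it)(3/2+it)| |Γ(1/2+it)|`,
`|Γ(25/2-it)| = |(21/2+it)(23/2+it)| |Γ(21/2+it)|`. -/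
def S_W : Prop := ∃ W : ℂ → ℂ, Cont bb W ∧ ∃ w : ℝ, 0 < w ∧ W 1 = w

/-- Task CSA. PROOF. For `n ≥ 1`, `u = log(n/x)`:
`L/√(2π) e^(-L²u²/2) = (1/2π) ∫_ℝ e^((σ+it)²/(2L²)) (x/n)^(σ+it) dt`, `σ = 3/2` (Gaussian integral, complete the
square: `integral_cexp_quadratic`), then Fubini (`integral_tsum` / `hasSum_integral_of_summable_integral_norm`,
`summ` at `3/2`). -/
def S_CSA : Prop := ∀ (b : ℕ → ℝ) (W : ℂ → ℂ), Cont b W → ∀ x L : ℝ, 1 ≤ x → 1 ≤ L →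
  Summable (fun n : ℕ => b n * Real.exp (-(L ^ 2 * Real.log (n / x) ^ 2 / 2))) ∧
  ((∑' n : ℕ, b n * Real.exp (-(L ^ 2 * Real.log (n / x) ^ 2 / 2)) : ℝ) : ℂ) =
    ((1 / (Real.sqrt (2 * π) * L) : ℝ) : ℂ) * ∫ t : ℝ, W (3 / 2 + I * t) / (1 / 2 + I * t) *
      (x : ℂ) ^ (3 / 2 + I * (t : ℂ)) * cexp ((3 / 2 + I * (t : ℂ)) ^ 2 / (2 * (L : ℂ) ^ 2))

/-- Task CSB. PROOF. `W s / (s-1) = W(1)/(s-1) + V`, `V = (W s - W 1)/(s-1)` entire (`dslope W 1`).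
First part: `1/(s-1) = ∫_1^∞ v^(-s) dv`, Fubini and the Gaussian formula of `S_CSA` (with `v` for `n`)
give `2π W(1) ∫_1^∞ L/√(2π) e^(-L² log²(v/x)/2) dv`, at most `2π |W 1| x e^(1/(2L²))` (substitute
`v = x e^u`). Second part: shift the contour to `re s = -1/2` (rectangle; `V` grows at most like
`e^(C(1+|t|)^(3/2))` in the strip and `|e^(s²/(2L²))| ≤ e^(2 - t²/(2L²))`, so the horizontal sides tend to
`0`), where `|V| ≤ C (1+|t|)^5`, `|x^s| = x^(-1/2)`: at most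
`C x^(-1/2) ∫ (1+|t|)^5 e^(-t²/(2L²)) dt ≤ C' x^(-1/2) L^6 ≤ C' x`. -/
def S_CSB : Prop := ∀ W : ℂ → ℂ, Differentiable ℂ W →
  (∃ C : ℝ, ∀ s : ℂ, -1 ≤ s.re → s.re ≤ 2 → ‖W s‖ ≤ Real.exp (C * (1 + |s.im|) ^ (3 / 2 : ℝ))) →
  (∃ C : ℝ, ∀ t : ℝ, ‖W (-(1 / 2) + I * t)‖ ≤ C * (1 + |t|) ^ (5 : ℕ)) →
  (∃ C : ℝ, ∀ t : ℝ, ‖W (3 / 2 + I * t)‖ ≤ C * (1 + |t|)) →
  ∃ C : ℝ, 0 < C ∧ ∀ x L : ℝ, 1 ≤ x → 1 ≤ L → L ≤ x ^ (1 / 4 : ℝ) →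
    ‖∫ t : ℝ, W (3 / 2 + I * t) / (1 / 2 + I * t) *
      (x : ℂ) ^ (3 / 2 + I * (t : ℂ)) * cexp ((3 / 2 + I * (t : ℂ)) ^ 2 / (2 * (L : ℂ) ^ 2))‖ ≤ C * x

/-- Task CS. Smoothed sums over short windows: `S_CSA`, `S_CSB`, `δ = 1/4`. -/
def S_CS : Prop := ∀ (b : ℕ → ℝ) (W : ℂ → ℂ), Cont b W → ∃ C δ : ℝ, 0 < C ∧ 0 < δ ∧
  ∀ x L : ℝ, 1 ≤ x → 1 ≤ L → L ≤ x ^ δ →
    Summable (fun n : ℕ => b n * Real.exp (-(L ^ 2 * Real.log (n / x) ^ 2 / 2))) ∧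
    ∑' n : ℕ, b n * Real.exp (-(L ^ 2 * Real.log (n / x) ^ 2 / 2)) ≤ C * x / L

/-- Task SHR. PROOF. Shrt: `L = x / h`, `1 ≤ L ≤ log³ x ≤ x^δ` for `x ≥ x₀`; for `x < n ≤ x + h`,
`0 ≤ log(n/x) ≤ h/x = 1/L`, so the weight is at least `e^(-1/2)`. For `2 ≤ x ≤ x₀`: `h ≥ x/log³x` is
bounded below (for `x ≥ 2`, `log x ≤ log x₀`) and the sum is at most `∑_{n ≤ 2x₀}`. (`n = 0` does not
occur.) Power: `x = n ≥ 1`, `L = n^δ`: `b n ≤ C n / n^δ`. -/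
def S_SHR : Prop := ∀ (a b : ℕ → ℝ), (∀ n, 0 ≤ b n) → (∀ n, a n ^ 2 ≤ b n) →
  (∃ C δ : ℝ, 0 < C ∧ 0 < δ ∧ ∀ x L : ℝ, 1 ≤ x → 1 ≤ L → L ≤ x ^ δ →
    Summable (fun n : ℕ => b n * Real.exp (-(L ^ 2 * Real.log (n / x) ^ 2 / 2))) ∧
    ∑' n : ℕ, b n * Real.exp (-(L ^ 2 * Real.log (n / x) ^ 2 / 2)) ≤ C * x / L) →
  Shrt (fun n => (a n : ℂ)) ∧ ∃ C δ : ℝ, 0 < C ∧ 0 < δ ∧ δ < 1 ∧
    ∀ n : ℕ, 1 ≤ n → a n ^ 2 ≤ C * (n : ℝ) ^ (1 - δ)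

/-- Task RSL. PROOF. For `s = 1 + σ`: `σ ∑ la² n^(-s) = W(1+σ) / ζ(2+2σ)` by `Cont.ser`, `S_COEF`;
`W` is continuous, `W 1 = w > 0`, and `(zs (1+σ)).toReal → (zs 1).toReal > 0` (dominated
convergence / continuity of the series). -/
def S_RSL : Prop := (∀ s : ℝ, 1 < s → rs s ≠ ⊤) → S_COEF → S_W → W388.RSLim la

/-- Task PRI. PROOF. `W388.p_sel : StSel` (or `W688.TW.t_sel Pool.Agent.W482.TW.t_id2 W688.TW.t_kara`,
files `Pool.Graph.R_seed8.W688.TW.{Sel,Kara}`, `Pool.Graph.R_seed8.W482.TW.Id2`) with `N = 1` gives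
`∑_{n ≤ x} Λ(n) cS(n)² / n ~ log x`, hence `∑_{T^α < n ≤ T^β} = (β - α + o(1)) log T`. Here
`cS 1 la p = la p` and `cS 1 la (p^j) = la(p^j) - la(p^(j-2)) = α_p^j + β_p^j` for `j ≥ 2`. The prime powers
`j ≥ 2` contribute a bounded amount: with `u = |la p| + 1` (so `|α_p|, |β_p| ≤ u`, or directly by
induction `|la(p^j)| ≤ (|la p|+1)^j`, so `|cS(p^j)| ≤ 2 (|la p|+1)^j`) and `(|la p|+1)² ≤ C p^(1-δ)`:
`log p cS(p^j)² / p^j ≤ 4 log p (u^4/p²) (C p^(-δ))^(j-2)`, and `∑_p log p u^4 / p² ≤ C ∑_p log p u² p^(-1-δ) < ∞`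
(`u² ≤ 2 la(p)² + 2`, `∑ la(n)² n^(-1-δ/2) < ∞` is part of `RSLim`); finitely many small primes with
`C p^(-δ) > 1/2` : there use `Summable` over `j` from `StSel` or `cS(p^j)² / p^j` bounded by
`|la(p^j)|² ≤ C p^(j(1-δ))`. So for large `T` the primes give at least `(β-α)/2 log T`; divide by
`log p ≤ β log T`: `c = (β - α)/(2β)`. -/
def S_PRI : Prop := W388.HeckeSeq 1 la → W388.RSLim la →
  (∃ C δ : ℝ, 0 < C ∧ 0 < δ ∧ δ < 1 ∧ ∀ n : ℕ, 1 ≤ n → la n ^ 2 ≤ C * (n : ℝ) ^ (1 - δ)) →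
  Prim (fun n => (la n : ℂ))

/-- Task INS. PROOF. `D.d = 2`, `D.mu = ![11/2, 13/2]`, `D.Q = 1`, `D.a n = la n`,
`D.Lam s = 2 LamM (s + 11/2)`, `D.w = 1`. `Gammaℝ s * Gammaℝ (s+1) = Gammaℂ s`
(`Complex.Gammaℝ_mul_Gammaℝ_add_one`). Everything about `LamM` and `la` is in
`Pool.Agent.H575.RD.{D1,D2,D3,D4}` (`LamM_diff`, `LamM_strip`, `LamM_fe`, `LamM_conj`, `la_mul`,
`la_bound`, `LM_eq`, `LM_series`, `la_series`); `prim` by `S_PRM`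
(`Pool.Graph.R_pool_sql_team_seeded_f72693b1.W50.BG.PRM`). -/
def S_INS : Prop := Pool.Agent.W475.BG.S_PRM → Shrt (fun n => (la n : ℂ)) →
  Prim (fun n => (la n : ℂ)) →
  ∃ D : Dat, Ok D ∧ D.d = 2 ∧ ∀ s : ℂ, D.Lam s = 2 * LamM (s + 11 / 2)

end Pool.Agent.H380.BG
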